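import Mathlib
import Pool.Agent.H6.Thr2

set_option autoImplicit false

namespace Pool.Agent.Results.MP_922b49_co.Uncountable

/-- The class `C_t` of `(-1,1,t)`-threshold graphs (finite graphs, taken on `Fin n`). -/
def C (t : ℝ) : Set (Σ n : ℕ, SimpleGraph (Fin n)) :=
  {G | ∃ r : Fin G.1 → ℝ, ∀ v w, v ≠ w →
    (G.2.Adj v w ↔ r v + r w ∈ Set.Ico (-1 : ℝ) 1 ∪ Set.Ici t)}

theorem result : Set.InjOn C (Set.Ioi 1) ∧ ¬ (C '' Set.Ioi 1).Countable := by
  have key : ∀ t t' : ℝ, 1 < t → t < t' → C t ≠ C t' := fun t t' h c e => by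
    obtain ⟨n, G, hG⟩ := Pool.Agent.H6.Thr2.main t t' h c
    exact hG (Set.ext_iff.1 e ⟨n, G⟩)
  have inj : Set.InjOn C (Set.Ioi 1) := fun t h t' h' e => by
    rcases lt_trichotomy t t' with c | c | c
    · exact absurd e (key t t' h c)
    · exact c
    · exact absurd e.symm (key t' t h' c)
  refine ⟨inj, fun hc => ?_⟩
  have := Set.countable_of_injective_of_countable_image inj hc
  rw [← Cardinal.le_aleph0_iff_set_countable, Cardinal.mk_Ioi_real] at this
  exact absurd this (not_le.2 Cardinal.aleph0_lt_continuum)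

end Pool.Agent.Results.MP_922b49_co.Uncountable
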